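import Mathlib

open Set Metric

namespace Pool.Agent.Lib.MP_af06f6_co

/-- Euclidean three-space. -/
abbrev E3 : Type := EuclideanSpace ℝ (Fin 3)

/-- A convex polyhedron: a bounded set with nonempty interior that is the intersection of finitely
many closed half-spaces. -/
def IsConvexPolyhedron (P : Set E3) : Prop :=
  Bornology.IsBounded P ∧ (interior P).Nonempty ∧
    ∃ (n : ℕ) (a : Fin n → E3) (b : Fin n → ℝ),
      (∀ i, a i ≠ 0) ∧ P = {x | ∀ i, inner ℝ (a i) x ≤ b i}

/-- The set of (closed) edges of `P`: the exposed faces of `P` that are nondegenerate segments. -/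
def edges (P : Set E3) : Set (Set E3) :=
  {e | ∃ p q : E3, p ≠ q ∧ e = segment ℝ p q ∧ IsExposed ℝ P e}

/-- `E(P)`: the union of the closed edges of `P`. -/
def skeleton (P : Set E3) : Set E3 := ⋃₀ edges P

/-- `L(P)`: the sum of the lengths of the edges of `P`. -/
noncomputable def totalLength (P : Set E3) : ℝ := ∑ᶠ e ∈ edges P, Metric.diam e

/-- `P` is edge-tangent to the unit sphere with centre `c`. -/
def EdgeTangent (P : Set E3) (c : E3) : Prop :=
  ∀ e ∈ edges P, (∃! x, x ∈ e ∩ sphere c 1) ∧ Disjoint e (ball c 1)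

/-- `P` cages the unit sphere with centre `c`: the open unit ball cannot be moved from `c`
along a continuous path of centres, missing all edges, to a position disjoint from `P`. -/
def Cages (P : Set E3) (c : E3) : Prop :=
  ¬ ∃ γ : ℝ → E3, ContinuousOn γ (Icc 0 1) ∧ γ 0 = c ∧
    (∀ t ∈ Icc (0 : ℝ) 1, Disjoint (ball (γ t) 1) (skeleton P)) ∧ Disjoint (ball (γ 1) 1) P

/-- The class of edge-tangent polyhedral cages of the unit sphere with centre `c`. -/
def cageClass (c : E3) : Set (Set E3) :=
  {P | IsConvexPolyhedron P ∧ EdgeTangent P c ∧ Cages P c}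

end Pool.Agent.Lib.MP_af06f6_co
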