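import Mathlib
import Pool.Agent.Lib.MP_af06f6_co.Defs

open Set Metric

namespace Pool.Agent.Lib.MP_af06f6_co

lemma inner3 (u v : E3) : inner ℝ u v = u 0 * v 0 + u 1 * v 1 + u 2 * v 2 := by
  simp [PiLp.inner_apply, Fin.sum_univ_three]
  ring

/-- The polyhedron given by finitely many inequalities. -/
def hpoly {n : ℕ} (a : Fin n → E3) (b : Fin n → ℝ) : Set E3 := {x | ∀ i, inner ℝ (a i) x ≤ b i}

variable {n : ℕ} {a : Fin n → E3} {b : Fin n → ℝ}

lemma hpoly_closed : IsClosed (hpoly a b) := by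
  have : hpoly a b = ⋂ i, {x | inner ℝ (a i) x ≤ b i} := by
    ext x; simp [hpoly]
  rw [this]
  exact isClosed_iInter fun i => isClosed_le (by fun_prop) continuous_const

lemma hpoly_convex : Convex ℝ (hpoly a b) := by
  intro x hx y hy s t hs ht hst i
  rw [inner_add_right, inner_smul_right, inner_smul_right]
  have h1 := hx i
  have h2 := hy i
  calc s * inner ℝ (a i) x + t * inner ℝ (a i) y ≤ s * b i + t * b i := by
        exact add_le_add (mul_le_mul_of_nonneg_left h1 hs) (mul_le_mul_of_nonneg_left h2 ht)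
    _ = b i := by rw [← add_mul, hst, one_mul]

lemma mem_interior_of_lt {x : E3} (h : ∀ i, inner ℝ (a i) x < b i) :
    x ∈ interior (hpoly a b) := by
  rw [mem_interior]
  refine ⟨{y | ∀ i, inner ℝ (a i) y < b i}, fun y hy i => (hy i).le, ?_, h⟩
  have : {y : E3 | ∀ i, inner ℝ (a i) y < b i} = ⋂ i, {y | inner ℝ (a i) y < b i} := by
    ext x; simp
  rw [this]
  exact isOpen_iInter_of_finite fun i => isOpen_lt (by fun_prop) continuous_const

/-- The face of active constraints at a point. -/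
def activeFace (a : Fin n → E3) (b : Fin n → ℝ) (m : E3) : Set E3 :=
  {x | x ∈ hpoly a b ∧ ∀ i, inner ℝ (a i) m = b i → inner ℝ (a i) x = b i}

/-- Moving a little from `m` away from a point of the active face stays in the polyhedron. -/
lemma exists_step {m x : E3} (hm : m ∈ hpoly a b) (hx : x ∈ activeFace a b m) :
    ∃ ε : ℝ, 0 < ε ∧ m + ε • (m - x) ∈ hpoly a b := by
  have key : ∀ i, ∃ ε : ℝ, 0 < ε ∧ ∀ η, 0 < η → η ≤ ε →
      inner ℝ (a i) (m + η • (m - x)) ≤ b i := by
    intro i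
    have e1 : ∀ η : ℝ, inner ℝ (a i) (m + η • (m - x))
        = inner ℝ (a i) m + η * (inner ℝ (a i) m - inner ℝ (a i) x) := by
      intro η
      rw [inner_add_right, inner_smul_right, inner_sub_right]
    by_cases h : inner ℝ (a i) m = b i
    · refine ⟨1, one_pos, fun η _ _ => ?_⟩
      rw [e1, hx.2 i h, h]
      simp
    · have hlt : inner ℝ (a i) m < b i := lt_of_le_of_ne (hm i) h
      set d := |inner ℝ (a i) m - inner ℝ (a i) x| + 1 with hd
      have hdpos : 0 < d := by positivity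
      refine ⟨(b i - inner ℝ (a i) m) / d, div_pos (by linarith) hdpos, fun η h1 h2 => ?_⟩
      rw [e1]
      have h3 : η * (inner ℝ (a i) m - inner ℝ (a i) x) ≤ η * d := by
        apply mul_le_mul_of_nonneg_left _ h1.le
        have := le_abs_self (inner ℝ (a i) m - inner ℝ (a i) x)
        linarith
      have h4 : η * d ≤ b i - inner ℝ (a i) m := by
        rwa [le_div_iff₀ hdpos] at h2
      linarith
  choose ε hε1 hε2 using key
  rcases Nat.eq_zero_or_pos n with hn | hn
  · subst hn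
    exact ⟨1, one_pos, fun i => i.elim0⟩
  · have : Nonempty (Fin n) := ⟨⟨0, hn⟩⟩
    obtain ⟨i0, hi0⟩ := Finite.exists_min ε
    exact ⟨ε i0, hε1 i0, fun i => hε2 i (ε i0) (hε1 i0) (hi0 i)⟩

/-- An exposed segment is the active face at its midpoint. -/
lemma exposed_eq_activeFace {e : Set E3} {p q : E3} (he : e = segment ℝ p q)
    (hexp : IsExposed ℝ (hpoly a b) e) :
    midpoint ℝ p q ∈ hpoly a b ∧ e = activeFace a b (midpoint ℝ p q) := by
  have hpe : p ∈ e := he ▸ left_mem_segment ℝ p q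
  have hqe : q ∈ e := he ▸ right_mem_segment ℝ p q
  have hme : midpoint ℝ p q ∈ e := he ▸ midpoint_mem_segment p q
  obtain ⟨l, hl⟩ := hexp ⟨p, hpe⟩
  have hm : midpoint ℝ p q ∈ hpoly a b := by
    rw [hl] at hme; exact hme.1
  have hsub : e ⊆ hpoly a b := by
    rw [hl]; exact fun x hx => hx.1
  refine ⟨hm, Subset.antisymm ?_ ?_⟩
  · intro x hx
    refine ⟨hsub hx, fun i hi => ?_⟩
    -- the active functional is constant on the segment
    have h1 := hsub hpe i
    have h2 := hsub hqe i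
    have hmid : inner ℝ (a i) (midpoint ℝ p q)
        = (1 / 2 : ℝ) * inner ℝ (a i) p + (1 / 2) * inner ℝ (a i) q := by
      rw [midpoint_eq_smul_add, inner_smul_right, inner_add_right]
      simp; ring
    rw [hmid] at hi
    have hp : inner ℝ (a i) p = b i := by linarith
    have hq : inner ℝ (a i) q = b i := by linarith
    rw [he] at hx
    obtain ⟨s, t, _, _, hst, rfl⟩ := hx
    rw [inner_add_right, inner_smul_right, inner_smul_right, hp, hq, ← add_mul, hst, one_mul]
  · intro x hx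
    obtain ⟨ε, hε, hstep⟩ := exists_step hm hx
    rw [hl] at hme ⊢
    refine ⟨hx.1, fun y hy => ?_⟩
    have h1 := hme.2 _ hstep
    have h2 := hme.2 y hy
    rw [map_add, map_smul, map_sub, smul_eq_mul] at h1
    have h3 : ε * (l (midpoint ℝ p q) - l x) ≤ 0 := by linarith
    have h4 : l (midpoint ℝ p q) - l x ≤ 0 := by
      by_contra hcon
      push Not at hcon
      have := mul_pos hε hcon
      linarith
    linarith

/-- A two-constraint face that is a segment is an edge. -/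
lemma edge_of_pair {i j : Fin n} {p q : E3} (hpq : p ≠ q)
    (hpi : inner ℝ (a i) p = b i) (hpj : inner ℝ (a j) p = b j)
    (hp : p ∈ hpoly a b)
    (h : {x | x ∈ hpoly a b ∧ inner ℝ (a i) x = b i ∧ inner ℝ (a j) x = b j} = segment ℝ p q) :
    segment ℝ p q ∈ edges (hpoly a b) := by
  refine ⟨p, q, hpq, rfl, fun _ => ⟨innerSL ℝ (a i + a j), ?_⟩⟩
  rw [← h]
  ext x
  simp only [mem_ofPred_eq, innerSL_apply_apply, inner_add_left]
  constructor
  · rintro ⟨hx, h1, h2⟩
    refine ⟨hx, fun y hy => ?_⟩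
    have := hy i
    have := hy j
    linarith
  · rintro ⟨hx, h1⟩
    have h2 := h1 p hp
    have h3 := hx i
    have h4 := hx j
    exact ⟨hx, by linarith, by linarith⟩

/-- If every boundary point of `P` is at distance less than one from an edge, then `P` cages. -/
lemma cages_of {P : Set E3} (hcl : IsClosed P) (h0 : (0 : E3) ∈ interior P)
    (hK : ∀ z ∈ P, z ∉ interior P → ∃ y ∈ skeleton P, dist y z < 1) : Cages P 0 := by
  rintro ⟨γ, hγ, hγ0, hγe, hγ1⟩
  have hconn : IsPreconnected (γ '' Icc 0 1) := isPreconnected_Icc.image γ hγ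
  have hcover : γ '' Icc 0 1 ⊆ interior P ∪ Pᶜ := by
    rintro _ ⟨t, ht, rfl⟩
    by_cases h1 : γ t ∈ P
    · by_cases h2 : γ t ∈ interior P
      · exact Or.inl h2
      · obtain ⟨y, hy, hyd⟩ := hK _ h1 h2
        exact absurd hy (Set.disjoint_left.1 (hγe t ht) (mem_ball.2 hyd))
    · exact Or.inr h1
  have hdisj : Disjoint (interior P) Pᶜ :=
    Set.disjoint_left.2 fun x hx hx2 => hx2 (interior_subset hx)
  have hne : (γ '' Icc 0 1 ∩ interior P).Nonempty :=
    ⟨γ 0, ⟨0, by simp, rfl⟩, hγ0 ▸ h0⟩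
  have hsub := hconn.subset_left_of_subset_union isOpen_interior hcl.isOpen_compl hdisj hcover hne
  have h1 : γ 1 ∈ P := interior_subset (hsub ⟨1, by simp, rfl⟩)
  exact Set.disjoint_left.1 hγ1 (mem_ball_self one_pos) h1

/-- On the unit-sphere-tangent segment: the norm formula. -/
lemma norm_sq_seg {p q : E3} {tp tq s : ℝ} (hp : ‖p‖ ^ 2 = 1 + tp ^ 2) (hq : ‖q‖ ^ 2 = 1 + tq ^ 2)
    (hpq : inner ℝ p q = 1 - tp * tq) :
    ‖(1 - s) • p + s • q‖ ^ 2 = 1 + ((1 - s) * tp - s * tq) ^ 2 := by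
  rw [@norm_add_sq_real, norm_smul, norm_smul, inner_smul_left, inner_smul_right, mul_pow, mul_pow,
    hp, hq, hpq]
  simp only [Real.norm_eq_abs, sq_abs, conj_trivial]
  ring

lemma dist_tangent {p q : E3} {tp tq : ℝ} (hp0 : 0 < tp) (hq0 : 0 < tq)
    (hp : ‖p‖ ^ 2 = 1 + tp ^ 2) (hq : ‖q‖ ^ 2 = 1 + tq ^ 2)
    (hpq : inner ℝ p q = 1 - tp * tq) : dist p q = tp + tq := by
  have h : dist p q ^ 2 = (tp + tq) ^ 2 := by
    rw [dist_eq_norm, @norm_sub_sq_real, hp, hq, hpq]
    ring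
  exact (pow_left_inj₀ dist_nonneg (by positivity) two_ne_zero).1 h

/-- Tangency of a segment with tangent lengths `tp`, `tq`. -/
lemma tangent_seg {p q : E3} {tp tq : ℝ} (hp0 : 0 < tp) (hq0 : 0 < tq)
    (hp : ‖p‖ ^ 2 = 1 + tp ^ 2) (hq : ‖q‖ ^ 2 = 1 + tq ^ 2)
    (hpq : inner ℝ p q = 1 - tp * tq) :
    (∃! x, x ∈ segment ℝ p q ∩ sphere (0 : E3) 1) ∧ Disjoint (segment ℝ p q) (ball 0 1) := by
  have hsum : 0 < tp + tq := by positivity
  have hnorm : ∀ s : ℝ, ‖(1 - s) • p + s • q‖ ^ 2 = 1 + ((1 - s) * tp - s * tq) ^ 2 :=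
    fun s => norm_sq_seg hp hq hpq
  constructor
  · refine ⟨(1 - tp / (tp + tq)) • p + (tp / (tp + tq)) • q, ⟨?_, ?_⟩, ?_⟩
    · refine ⟨1 - tp / (tp + tq), tp / (tp + tq), ?_, by positivity, by ring, rfl⟩
      rw [sub_nonneg, div_le_one hsum]; linarith
    · rw [mem_sphere, dist_zero_right]
      have h1 := hnorm (tp / (tp + tq))
      have h2 : (1 - tp / (tp + tq)) * tp - tp / (tp + tq) * tq = 0 := by
        field_simp; ring
      rw [h2] at h1
      have h3 : ‖(1 - tp / (tp + tq)) • p + (tp / (tp + tq)) • q‖ ^ 2 = 1 ^ 2 := by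
        rw [h1]; ring
      exact (pow_left_inj₀ (norm_nonneg _) zero_le_one two_ne_zero).1 h3
    · rintro x ⟨⟨u, s, _, _, hus, rfl⟩, hx⟩
      have hu : u = 1 - s := by linarith
      subst hu
      rw [mem_sphere, dist_zero_right] at hx
      have h1 := hnorm s
      rw [hx] at h1
      have h2 : ((1 - s) * tp - s * tq) ^ 2 = 0 := by linarith
      have h3 : (1 - s) * tp - s * tq = 0 := by
        exact pow_eq_zero_iff two_ne_zero |>.1 h2
      have h4 : s = tp / (tp + tq) := by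
        rw [eq_div_iff (ne_of_gt hsum)]; linarith
      rw [← h4]
  · rw [Set.disjoint_left]
    rintro x ⟨u, s, _, _, hus, rfl⟩ hx
    have hu : u = 1 - s := by linarith
    subst hu
    rw [mem_ball, dist_zero_right] at hx
    have h1 := hnorm s
    have h2 : ‖(1 - s) • p + s • q‖ ^ 2 < 1 := by
      have := norm_nonneg ((1 - s) • p + s • q)
      nlinarith
    nlinarith [sq_nonneg ((1 - s) * tp - s * tq)]

/-- The tangent point of a segment. -/
lemma exists_tangent_point {p q : E3} {tp tq : ℝ} (hp0 : 0 < tp) (hq0 : 0 < tq)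
    (hp : ‖p‖ ^ 2 = 1 + tp ^ 2) (hq : ‖q‖ ^ 2 = 1 + tq ^ 2)
    (hpq : inner ℝ p q = 1 - tp * tq) :
    ∃ x ∈ segment ℝ p q, ‖x‖ = 1 := by
  obtain ⟨⟨x, hx, _⟩, _⟩ := tangent_seg hp0 hq0 hp hq hpq
  refine ⟨x, hx.1, ?_⟩
  have := hx.2
  rwa [mem_sphere, dist_zero_right] at this

end Pool.Agent.Lib.MP_af06f6_co
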