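import Mathlib
import Pool.Agent.Lib.MP_af06f6_co.General

open Set Metric

namespace Pool.Agent.Lib.MP_af06f6_co

variable {n N K : ℕ}

/-- Combinatorial and metric data describing an edge-tangent polyhedron. -/
structure CageData (a : Fin n → E3) (b : Fin n → ℝ) (V : Fin N → E3) (t : Fin N → ℝ)
    (act : Fin N → Fin n → Bool) (ei ej : Fin K → Fin n) (ep eq : Fin K → Fin N) : Prop where
  hbd : Bornology.IsBounded (hpoly a b)
  hb : ∀ i, 0 < b i
  ha : ∀ i, a i ≠ 0
  hact : ∀ v i, act v i = true → inner ℝ (a i) (V v) = b i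
  hnact : ∀ v i, act v i = false → inner ℝ (a i) (V v) < b i
  hinc : ∀ k, act (ep k) (ei k) = true ∧ act (ep k) (ej k) = true ∧
    act (eq k) (ei k) = true ∧ act (eq k) (ej k) = true
  hne : ∀ k, V (ep k) ≠ V (eq k)
  hij : ∀ k, ei k ≠ ej k
  hseg : ∀ k, ∀ x ∈ hpoly a b, inner ℝ (a (ei k)) x = b (ei k) →
    inner ℝ (a (ej k)) x = b (ej k) → x ∈ segment ℝ (V (ep k)) (V (eq k))
  hpairs : ∀ i j, i ≠ j → (∃ k, (ei k = i ∧ ej k = j) ∨ (ei k = j ∧ ej k = i)) ∨
    ∀ x ∈ hpoly a b, ¬ (inner ℝ (a i) x = b i ∧ inner ℝ (a j) x = b j)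
  hdiff : ∀ k l, k ≠ l → ∃ v i, (v = ep l ∨ v = eq l) ∧ (i = ei k ∨ i = ej k) ∧ act v i = false
  hthree : ∀ i, ∃ u v w, act u i = true ∧ act v i = true ∧ act w i = true ∧
    ¬ Collinear ℝ {V u, V v, V w}
  hface : ∀ i, ∃ k, ei k = i ∨ ej k = i
  hn : 0 < n
  ht : ∀ v, 0 < t v
  hnorm : ∀ v, ‖V v‖ ^ 2 = 1 + t v ^ 2
  hinner : ∀ k, inner ℝ (V (ep k)) (V (eq k)) = 1 - t (ep k) * t (eq k)

variable {a : Fin n → E3} {b : Fin n → ℝ} {V : Fin N → E3} {t : Fin N → ℝ}
  {act : Fin N → Fin n → Bool} {ei ej : Fin K → Fin n} {ep eq : Fin K → Fin N}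

namespace CageData

variable (D : CageData a b V t act ei ej ep eq)

include D

lemma mem_V (v : Fin N) : V v ∈ hpoly a b := by
  intro i
  cases h : act v i with
  | true => exact (D.hact v i h).le
  | false => exact (D.hnact v i h).le

lemma seg_eq (k : Fin K) :
    {x | x ∈ hpoly a b ∧ inner ℝ (a (ei k)) x = b (ei k) ∧ inner ℝ (a (ej k)) x = b (ej k)}
      = segment ℝ (V (ep k)) (V (eq k)) := by
  ext x
  constructor
  · rintro ⟨hx, h1, h2⟩
    exact D.hseg k x hx h1 h2
  · intro hx
    have hxP : x ∈ hpoly a b := hpoly_convex.segment_subset (D.mem_V _) (D.mem_V _) hx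
    obtain ⟨u, s, _, _, hus, rfl⟩ := hx
    obtain ⟨h1, h2, h3, h4⟩ := D.hinc k
    refine ⟨hxP, ?_, ?_⟩
    · rw [inner_add_right, inner_smul_right, inner_smul_right, D.hact _ _ h1, D.hact _ _ h3,
        ← add_mul, hus, one_mul]
    · rw [inner_add_right, inner_smul_right, inner_smul_right, D.hact _ _ h2, D.hact _ _ h4,
        ← add_mul, hus, one_mul]

lemma seg_mem_edges (k : Fin K) : segment ℝ (V (ep k)) (V (eq k)) ∈ edges (hpoly a b) := by
  obtain ⟨h1, h2, h3, h4⟩ := D.hinc k
  exact edge_of_pair (D.hne k) (D.hact _ _ h1) (D.hact _ _ h2) (D.mem_V _) (D.seg_eq k)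

lemma edges_eq : edges (hpoly a b) = range (fun k => segment ℝ (V (ep k)) (V (eq k))) := by
  ext e
  constructor
  · rintro ⟨p, q, hpq, he, hexp⟩
    obtain ⟨hm, hact⟩ := exposed_eq_activeFace he hexp
    set m := midpoint ℝ p q with hmdef
    have hcol : ∀ u v w : E3, u ∈ e → v ∈ e → w ∈ e → Collinear ℝ {u, v, w} := by
      intro u v w hu hv hw
      have hline : ∀ x ∈ e, ∃ r : ℝ, x = r • (q - p) +ᵥ p := by
        intro x hx
        rw [he, segment_eq_image_lineMap] at hx
        obtain ⟨r, _, rfl⟩ := hx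
        exact ⟨r, by rw [AffineMap.lineMap_apply, vsub_eq_sub]⟩
      rw [collinear_iff_exists_forall_eq_smul_vadd]
      refine ⟨p, q - p, ?_⟩
      intro x hx
      rcases hx with rfl | rfl | rfl
      · exact hline _ hu
      · exact hline _ hv
      · exact hline _ hw
    -- there are two distinct active constraints
    have hex : ∃ i j, i ≠ j ∧ inner ℝ (a i) m = b i ∧ inner ℝ (a j) m = b j := by
      by_contra hcon
      push Not at hcon
      -- then some face is contained in `e`
      have hi : ∃ i, ∀ j, inner ℝ (a j) m = b j → j = i := by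
        by_cases h : ∃ i, inner ℝ (a i) m = b i
        · obtain ⟨i, hi⟩ := h
          refine ⟨i, fun j hj => ?_⟩
          by_contra hne
          exact hcon i j (Ne.symm hne) hi hj
        · push Not at h
          exact ⟨⟨0, D.hn⟩, fun j hj => absurd hj (h j)⟩
      obtain ⟨i, hi⟩ := hi
      obtain ⟨u, v, w, hu, hv, hw, hncol⟩ := D.hthree i
      have hmem : ∀ v, act v i = true → V v ∈ e := by
        intro v hv
        rw [hact]
        refine ⟨D.mem_V v, fun j hj => ?_⟩
        rw [hi j hj]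
        exact D.hact v i hv
      exact hncol (hcol _ _ _ (hmem u hu) (hmem v hv) (hmem w hw))
    obtain ⟨i, j, hij, hi, hj⟩ := hex
    rcases D.hpairs i j hij with ⟨k, hk⟩ | h
    · have hik : inner ℝ (a (ei k)) m = b (ei k) ∧ inner ℝ (a (ej k)) m = b (ej k) := by
        rcases hk with ⟨h1, h2⟩ | ⟨h1, h2⟩
        · rw [h1, h2]; exact ⟨hi, hj⟩
        · rw [h1, h2]; exact ⟨hj, hi⟩
      have hesub : ∀ x ∈ e, x ∈ segment ℝ (V (ep k)) (V (eq k)) := by
        intro x hx
        rw [hact] at hx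
        exact D.hseg k x hx.1 (hx.2 _ hik.1) (hx.2 _ hik.2)
      refine ⟨k, ?_⟩
      apply Subset.antisymm _ hesub
      -- both endpoints belong to `e`
      have hms : m ∈ segment ℝ (V (ep k)) (V (eq k)) :=
        D.hseg k m hm hik.1 hik.2
      have hpe : p ∈ e := he ▸ left_mem_segment ℝ p q
      have hqe : q ∈ e := he ▸ right_mem_segment ℝ p q
      have hps := hesub p hpe
      have hqs := hesub q hqe
      rw [segment_eq_image] at hms hps hqs
      obtain ⟨s, ⟨hs0, hs1⟩, hs⟩ := hms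
      obtain ⟨sp, ⟨hsp0, hsp1⟩, hsp⟩ := hps
      obtain ⟨sq, ⟨hsq0, hsq1⟩, hsq⟩ := hqs
      simp only at hs hsp hsq
      have hdne : V (eq k) - V (ep k) ≠ 0 := sub_ne_zero.2 (D.hne k).symm
      have hsval : s = (sp + sq) / 2 := by
        have h1 : m = (1 / 2 : ℝ) • p + (1 / 2 : ℝ) • q := by
          rw [hmdef, midpoint_eq_smul_add]
          rw [smul_add]; simp
        rw [← hs, ← hsp, ← hsq] at h1
        have h2 : (s - (sp + sq) / 2) • (V (eq k) - V (ep k)) = 0 := by
          have h3 : (1 - s) • V (ep k) + s • V (eq k)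
              - ((1 / 2 : ℝ) • ((1 - sp) • V (ep k) + sp • V (eq k))
                + (1 / 2 : ℝ) • ((1 - sq) • V (ep k) + sq • V (eq k))) = 0 := by
            rw [h1]; simp
          rw [← h3]
          module
        rcases smul_eq_zero.1 h2 with h | h
        · linarith
        · exact absurd h hdne
      have hspq : sp ≠ sq := by
        intro h
        apply hpq
        rw [← hsp, ← hsq, h]
      have hspos : 0 < s := by
        rcases lt_or_gt_of_ne hspq with h | h <;> linarith
      have hslt : s < 1 := by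
        rcases lt_or_gt_of_ne hspq with h | h <;> linarith
      have hend : V (ep k) ∈ e ∧ V (eq k) ∈ e := by
        have hboth : ∀ l, inner ℝ (a l) m = b l →
            inner ℝ (a l) (V (ep k)) = b l ∧ inner ℝ (a l) (V (eq k)) = b l := by
          intro l hl
          have h1 := D.mem_V (ep k) l
          have h2 := D.mem_V (eq k) l
          rw [← hs, inner_add_right, inner_smul_right, inner_smul_right] at hl
          constructor
          · by_contra hc
            have h3 : inner ℝ (a l) (V (ep k)) < b l := lt_of_le_of_ne h1 hc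
            have h4 : (1 - s) * inner ℝ (a l) (V (ep k)) < (1 - s) * b l :=
              mul_lt_mul_of_pos_left h3 (by linarith)
            have h5 : s * inner ℝ (a l) (V (eq k)) ≤ s * b l :=
              mul_le_mul_of_nonneg_left h2 hspos.le
            linarith
          · by_contra hc
            have h3 : inner ℝ (a l) (V (eq k)) < b l := lt_of_le_of_ne h2 hc
            have h4 : s * inner ℝ (a l) (V (eq k)) < s * b l :=
              mul_lt_mul_of_pos_left h3 hspos
            have h5 : (1 - s) * inner ℝ (a l) (V (ep k)) ≤ (1 - s) * b l :=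
              mul_le_mul_of_nonneg_left h1 (by linarith)
            linarith
        rw [hact]
        exact ⟨⟨D.mem_V _, fun l hl => (hboth l hl).1⟩, ⟨D.mem_V _, fun l hl => (hboth l hl).2⟩⟩
      have hconv : Convex ℝ e := by rw [he]; exact convex_segment p q
      exact hconv.segment_subset hend.1 hend.2
    · exact absurd ⟨hi, hj⟩ (h m hm)
  · rintro ⟨k, rfl⟩
    exact D.seg_mem_edges k

lemma seg_injective : Function.Injective (fun k => segment ℝ (V (ep k)) (V (eq k))) := by
  intro k l hkl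
  by_contra hne
  obtain ⟨v, i, hv, hi, hf⟩ := D.hdiff k l hne
  have h1 : V v ∈ segment ℝ (V (ep k)) (V (eq k)) := by
    have h2 : V v ∈ segment ℝ (V (ep l)) (V (eq l)) := by
      rcases hv with rfl | rfl
      · exact left_mem_segment _ _ _
      · exact right_mem_segment _ _ _
    simp only at hkl
    rwa [hkl]
  rw [← D.seg_eq k] at h1
  have h3 : inner ℝ (a i) (V v) = b i := by
    rcases hi with rfl | rfl
    · exact h1.2.1
    · exact h1.2.2
  exact absurd h3 (ne_of_lt (D.hnact v i hf))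

lemma edgeTangent : EdgeTangent (hpoly a b) 0 := by
  intro e he
  rw [D.edges_eq] at he
  obtain ⟨k, rfl⟩ := he
  exact tangent_seg (D.ht _) (D.ht _) (D.hnorm _) (D.hnorm _) (D.hinner k)

omit D in
lemma diam_seg (p q : E3) : Metric.diam (segment ℝ p q) = dist p q := by
  rw [← convexHull_pair, convexHull_diam, Metric.diam_pair]

lemma totalLength_eq : totalLength (hpoly a b) = ∑ k, (t (ep k) + t (eq k)) := by
  unfold totalLength
  rw [D.edges_eq, finsum_mem_range D.seg_injective, finsum_eq_sum_of_fintype]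
  refine Finset.sum_congr rfl fun k _ => ?_
  rw [diam_seg]
  exact dist_tangent (D.ht _) (D.ht _) (D.hnorm _) (D.hnorm _) (D.hinner k)

lemma zero_mem_interior : (0 : E3) ∈ interior (hpoly a b) := by
  apply mem_interior_of_lt
  intro i
  rw [inner_zero_right]
  exact D.hb i

lemma isConvexPolyhedron : IsConvexPolyhedron (hpoly a b) :=
  ⟨D.hbd, ⟨0, D.zero_mem_interior⟩, n, a, b, D.ha, rfl⟩

/-- The exit point of a ray. -/
lemma exit_point {z u : E3} (hz : z ∈ hpoly a b) (hu : u ≠ 0) :
    ∃ r : ℝ, 0 ≤ r ∧ z + r • u ∈ hpoly a b ∧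
      ∃ j, 0 < inner ℝ (a j) u ∧ inner ℝ (a j) (z + r • u) = b j := by
  classical
  have hex : ∃ j, 0 < inner ℝ (a j) u := by
    by_contra hcon
    push Not at hcon
    obtain ⟨R, hR⟩ := D.hbd.subset_closedBall (0 : E3)
    have hunorm : 0 < ‖u‖ := norm_pos_iff.2 hu
    have hin : ∀ r : ℝ, 0 ≤ r → z + r • u ∈ hpoly a b := by
      intro r hr i
      rw [inner_add_right, inner_smul_right]
      have := mul_nonpos_of_nonneg_of_nonpos hr (hcon i)
      have := hz i
      linarith
    have h1 := hR (hin ((‖z‖ + |R| + 1) / ‖u‖) (by positivity))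
    rw [mem_closedBall, dist_zero_right] at h1
    have h2 : ‖((‖z‖ + |R| + 1) / ‖u‖) • u‖ = ‖z‖ + |R| + 1 := by
      rw [norm_smul, Real.norm_of_nonneg (by positivity)]
      field_simp
    have h3 : ‖((‖z‖ + |R| + 1) / ‖u‖) • u‖ ≤ ‖z + ((‖z‖ + |R| + 1) / ‖u‖) • u‖ + ‖z‖ := by
      have h4 : ((‖z‖ + |R| + 1) / ‖u‖) • u = (z + ((‖z‖ + |R| + 1) / ‖u‖) • u) - z := by
        simp
      calc ‖((‖z‖ + |R| + 1) / ‖u‖) • u‖
          = ‖(z + ((‖z‖ + |R| + 1) / ‖u‖) • u) - z‖ := by rw [← h4]
        _ ≤ _ := norm_sub_le _ _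
    have h5 := le_abs_self R
    linarith
  set J := Finset.univ.filter (fun j : Fin n => 0 < inner ℝ (a j) u) with hJ
  have hJne : J.Nonempty := by
    obtain ⟨j, hj⟩ := hex
    exact ⟨j, by simp [hJ, hj]⟩
  obtain ⟨j, hjJ, hjmin⟩ := Finset.exists_min_image J
    (fun j => (b j - inner ℝ (a j) z) / inner ℝ (a j) u) hJne
  have hj : 0 < inner ℝ (a j) u := (Finset.mem_filter.1 hjJ).2
  set r := (b j - inner ℝ (a j) z) / inner ℝ (a j) u with hr
  have hr0 : 0 ≤ r := div_nonneg (sub_nonneg.2 (hz j)) hj.le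
  refine ⟨r, hr0, ?_, j, hj, ?_⟩
  · intro i
    rw [inner_add_right, inner_smul_right]
    by_cases hi : 0 < inner ℝ (a i) u
    · have h1 := hjmin i (by simp [hJ, hi])
      have h2 : r * inner ℝ (a i) u ≤ b i - inner ℝ (a i) z := by
        rwa [le_div_iff₀ hi] at h1
      linarith
    · push Not at hi
      have := mul_nonpos_of_nonneg_of_nonpos hr0 hi
      have := hz i
      linarith
  · rw [inner_add_right, inner_smul_right, hr, div_mul_cancel₀ _ (ne_of_gt hj)]
    ring

lemma near_edge (z : E3) (hz : z ∈ hpoly a b) (hzi : z ∉ interior (hpoly a b)) :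
    ∃ y ∈ skeleton (hpoly a b), dist y z < 1 := by
  have hexi : ∃ i, inner ℝ (a i) z = b i := by
    by_contra hcon
    push Not at hcon
    exact hzi (mem_interior_of_lt fun i => lt_of_le_of_ne (hz i) (hcon i))
  obtain ⟨i, hi⟩ := hexi
  have hai : 0 < ‖a i‖ := norm_pos_iff.2 (D.ha i)
  set c : E3 := (b i / ‖a i‖ ^ 2) • a i with hc
  have hcnorm : ‖c‖ ^ 2 = b i ^ 2 / ‖a i‖ ^ 2 := by
    rw [hc, norm_smul, mul_pow, Real.norm_eq_abs, sq_abs]
    field_simp
  have hcpos : 0 < ‖c‖ ^ 2 := by
    rw [hcnorm]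
    have := D.hb i
    positivity
  have hac : inner ℝ (a i) c = b i := by
    rw [hc, inner_smul_right, real_inner_self_eq_norm_sq]
    field_simp
  -- distance from `c` to a tangent point in the plane
  have hdist : ∀ x : E3, ‖x‖ = 1 → inner ℝ (a i) x = b i → ‖x - c‖ < 1 := by
    intro x hx hxi
    have h1 : ‖x - c‖ ^ 2 = 1 - ‖c‖ ^ 2 := by
      rw [@norm_sub_sq_real, hx]
      have h2 : inner ℝ x c = ‖c‖ ^ 2 := by
        rw [hcnorm, real_inner_comm, hc, inner_smul_left]
        simp only [conj_trivial]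
        rw [hxi]
        ring
      rw [h2]; ring
    have h3 : ‖x - c‖ ^ 2 < 1 := by linarith
    have h4 := norm_nonneg (x - c)
    nlinarith
  have htan : ∀ k, ∃ x ∈ segment ℝ (V (ep k)) (V (eq k)), ‖x‖ = 1 := fun k =>
    exists_tangent_point (D.ht _) (D.ht _) (D.hnorm _) (D.hnorm _) (D.hinner k)
  by_cases hzc : z = c
  · obtain ⟨k, hk⟩ := D.hface i
    obtain ⟨x, hx, hx1⟩ := htan k
    refine ⟨x, ⟨_, D.seg_mem_edges k, hx⟩, ?_⟩
    rw [← D.seg_eq k] at hx
    have hxi : inner ℝ (a i) x = b i := by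
      rcases hk with rfl | rfl
      · exact hx.2.1
      · exact hx.2.2
    rw [dist_eq_norm, hzc]
    exact hdist x hx1 hxi
  · have hu : z - c ≠ 0 := sub_ne_zero.2 hzc
    have haiu : inner ℝ (a i) (z - c) = 0 := by rw [inner_sub_right, hi, hac, sub_self]
    obtain ⟨r, hr, hy, j, hju, hjy⟩ := D.exit_point hz hu
    set y := z + r • (z - c) with hydef
    have hij : i ≠ j := by
      rintro rfl
      rw [haiu] at hju
      exact lt_irrefl _ hju
    have hiy : inner ℝ (a i) y = b i := by
      rw [hydef, inner_add_right, inner_smul_right, haiu, hi]; ring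
    rcases D.hpairs i j hij with ⟨k, hk⟩ | h
    · have hik : inner ℝ (a (ei k)) y = b (ei k) ∧ inner ℝ (a (ej k)) y = b (ej k) := by
        rcases hk with ⟨h1, h2⟩ | ⟨h1, h2⟩
        · rw [h1, h2]; exact ⟨hiy, hjy⟩
        · rw [h1, h2]; exact ⟨hjy, hiy⟩
      have hys := D.hseg k y hy hik.1 hik.2
      obtain ⟨x, hx, hx1⟩ := htan k
      have hx' := hx
      rw [← D.seg_eq k] at hx'
      have hxi : inner ℝ (a i) x = b i := by
        rcases hk with ⟨h1, _⟩ | ⟨_, h2⟩
        · rw [← h1]; exact hx'.2.1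
        · rw [← h2]; exact hx'.2.2
      have h1r : (0 : ℝ) < 1 + r := by linarith
      set w := (1 / (1 + r)) • y + (r / (1 + r)) • x with hw
      have hws : w ∈ segment ℝ (V (ep k)) (V (eq k)) := by
        apply (convex_segment (𝕜 := ℝ) (V (ep k)) (V (eq k))) hys hx (by positivity) (by positivity)
        field_simp
      refine ⟨w, ⟨_, D.seg_mem_edges k, hws⟩, ?_⟩
      have hwz : w - z = (r / (1 + r)) • (x - c) := by
        have h2 : z = (1 / (1 + r)) • y + (r / (1 + r)) • c := by
          rw [hydef]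
          have h3 : (1 / (1 + r)) • (z + r • (z - c)) + (r / (1 + r)) • c
              = ((1 / (1 + r)) * (1 + r)) • z := by
            rw [div_eq_mul_one_div r (1 + r)]
            module
          rw [h3, one_div_mul_cancel (ne_of_gt h1r), one_smul]
        have h7 : w - z = w - ((1 / (1 + r)) • y + (r / (1 + r)) • c) := by rw [← h2]
        rw [h7, hw]
        module
      rw [dist_eq_norm, hwz, norm_smul, Real.norm_of_nonneg (by positivity)]
      have h4 := hdist x hx1 hxi
      have h5 : r / (1 + r) ≤ 1 := by rw [div_le_one h1r]; linarith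
      have h6 := norm_nonneg (x - c)
      calc r / (1 + r) * ‖x - c‖ ≤ 1 * ‖x - c‖ := mul_le_mul_of_nonneg_right h5 h6
        _ < 1 := by linarith
    · exact absurd ⟨hiy, hjy⟩ (h y hy)

theorem mem_cageClass : hpoly a b ∈ cageClass 0 :=
  ⟨D.isConvexPolyhedron, D.edgeTangent,
    cages_of hpoly_closed D.zero_mem_interior D.near_edge⟩

end CageData

end Pool.Agent.Lib.MP_af06f6_co
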