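import Mathlib
import Pool.Agent.Lib.MP_af06f6_co.Main

open Set Metric

namespace Pool.Agent.Lib.MP_af06f6_co

variable {n N K : ℕ}

/-- Constructing `CageData` from metric data and purely combinatorial conditions. -/
theorem cageData_of {a : Fin n → E3} {b : Fin n → ℝ} {V : Fin N → E3} {t : Fin N → ℝ}
    {act : Fin N → Fin n → Bool} {ei ej : Fin K → Fin n} {ep eq : Fin K → Fin N}
    (hbd : Bornology.IsBounded (hpoly a b)) (hb : ∀ i, 0 < b i) (ha : ∀ i, a i ≠ 0)
    (hact : ∀ v i, act v i = true → inner ℝ (a i) (V v) = b i)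
    (hnact : ∀ v i, act v i = false → inner ℝ (a i) (V v) < b i)
    (hindep : ∀ v, ∀ d : E3, (∀ i, act v i = true → inner ℝ (a i) d = 0) → d = 0)
    (hempty : ∀ i j, i ≠ j → (∀ k, ¬ ((ei k = i ∧ ej k = j) ∨ (ei k = j ∧ ej k = i))) →
      ∀ x ∈ hpoly a b, ¬ (inner ℝ (a i) x = b i ∧ inner ℝ (a j) x = b j))
    (ht : ∀ v, 0 < t v) (hnorm : ∀ v, ‖V v‖ ^ 2 = 1 + t v ^ 2)
    (hinner : ∀ k, inner ℝ (V (ep k)) (V (eq k)) = 1 - t (ep k) * t (eq k))
    (hn : 0 < n)
    (c1 : ∀ k, act (ep k) (ei k) = true ∧ act (ep k) (ej k) = true ∧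
      act (eq k) (ei k) = true ∧ act (eq k) (ej k) = true)
    (c2 : ∀ k, ei k ≠ ej k)
    (c3 : ∀ k, ∃ l m, act (ep k) l = true ∧ act (eq k) l = false ∧ act (eq k) m = true ∧
      act (ep k) m = false ∧ ∀ i, act (ep k) i = true → i = ei k ∨ i = ej k ∨ i = l)
    (c4 : ∀ k l, k ≠ l →
      ∃ v i, (v = ep l ∨ v = eq l) ∧ (i = ei k ∨ i = ej k) ∧ act v i = false)
    (c5 : ∀ i, ∃ k w, act w i = true ∧
      ((ei k = i ∧ act w (ej k) = false) ∨ (ej k = i ∧ act w (ei k) = false))) :
    CageData a b V t act ei ej ep eq := by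
  have hne : ∀ k, V (ep k) ≠ V (eq k) := by
    intro k h
    obtain ⟨l, m, h1, h2, _⟩ := c3 k
    have h3 := hact _ _ h1
    have h4 := hnact _ _ h2
    rw [h] at h3
    linarith
  refine ⟨hbd, hb, ha, hact, hnact, c1, hne, c2, ?_, ?_, c4, ?_, ?_, hn, ht, hnorm, hinner⟩
  · -- segments
    intro k x hx hxi hxj
    obtain ⟨l, m, h1, h2, h3, h4, h5⟩ := c3 k
    obtain ⟨g1, g2, g3, g4⟩ := c1 k
    have hl := hact _ _ h1
    have hl2 := hnact _ _ h2
    have hm := hact _ _ h3
    have hm2 := hnact _ _ h4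
    set p := V (ep k) with hp
    set q := V (eq k) with hq
    have hden : 0 < b l - inner ℝ (a l) q := by linarith
    set s := (b l - inner ℝ (a l) x) / (b l - inner ℝ (a l) q) with hs
    have hs0 : 0 ≤ s := div_nonneg (sub_nonneg.2 (hx l)) hden.le
    have hsl : s * (b l - inner ℝ (a l) q) = b l - inner ℝ (a l) x := by
      rw [hs]; field_simp
    have hd : x - ((1 - s) • p + s • q) = 0 := by
      apply hindep (ep k)
      intro i hi
      rw [inner_sub_right, inner_add_right, inner_smul_right, inner_smul_right]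
      rcases h5 i hi with rfl | rfl | rfl
      · rw [hxi, hact _ _ g1, hact _ _ g3]; ring
      · rw [hxj, hact _ _ g2, hact _ _ g4]; ring
      · rw [hl]; linarith
    have hxeq : x = (1 - s) • p + s • q := by
      rw [← sub_eq_zero]; exact hd
    have hs1 : s ≤ 1 := by
      have h6 := hx m
      rw [hxeq, inner_add_right, inner_smul_right, inner_smul_right, hm] at h6
      by_contra hcon
      push Not at hcon
      have h7 : (1 - s) * inner ℝ (a m) p > (1 - s) * b m :=
        mul_lt_mul_of_neg_left hm2 (by linarith)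
      linarith
    exact ⟨1 - s, s, by linarith, hs0, by ring, hxeq.symm⟩
  · intro i j hij
    by_cases h : ∃ k, (ei k = i ∧ ej k = j) ∨ (ei k = j ∧ ej k = i)
    · exact Or.inl h
    · right
      apply hempty i j hij
      intro k hk
      exact h ⟨k, hk⟩
  · -- non-collinearity
    intro i
    obtain ⟨k, w, hw, hk⟩ := c5 i
    have main : ∀ j, (act (ep k) j = true ∧ act (eq k) j = true) → act w j = false →
        ¬ Collinear ℝ {V (ep k), V (eq k), V w} := by
      intro j ⟨hj1, hj2⟩ hwj hcol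
      rw [collinear_iff_of_mem (p₀ := V (ep k)) (by simp)] at hcol
      obtain ⟨v, hv⟩ := hcol
      obtain ⟨r1, hr1⟩ := hv (V (eq k)) (by simp)
      obtain ⟨r2, hr2⟩ := hv (V w) (by simp)
      have e1 := hact _ _ hj1
      have e2 := hact _ _ hj2
      have e3 := hnact _ _ hwj
      rw [vadd_eq_add] at hr1 hr2
      rw [hr1, inner_add_right, inner_smul_right, e1] at e2
      rw [hr2, inner_add_right, inner_smul_right, e1] at e3
      have hr1ne : r1 ≠ 0 := by
        rintro rfl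
        apply hne k
        rw [hr1]; simp
      have e4 : inner ℝ (a j) v = 0 := by
        have : r1 * inner ℝ (a j) v = 0 := by linarith
        rcases mul_eq_zero.1 this with h | h
        · exact absurd h hr1ne
        · exact h
      rw [e4] at e3
      linarith
    obtain ⟨g1, g2, g3, g4⟩ := c1 k
    rcases hk with ⟨h1, h2⟩ | ⟨h1, h2⟩
    · exact ⟨ep k, eq k, w, h1 ▸ g1, h1 ▸ g3, hw, main _ ⟨g2, g4⟩ h2⟩
    · exact ⟨ep k, eq k, w, h1 ▸ g2, h1 ▸ g4, hw, main _ ⟨g1, g3⟩ h2⟩
  · intro i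
    obtain ⟨k, _, _, hk⟩ := c5 i
    refine ⟨k, ?_⟩
    rcases hk with ⟨h, _⟩ | ⟨h, _⟩
    · exact Or.inl h
    · exact Or.inr h

end Pool.Agent.Lib.MP_af06f6_co
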