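import Mathlib
import Pool.Agent.Lib.MP_af06f6_co.Data

open Set Metric

namespace Pool.Agent.Lib.MP_af06f6_co

namespace Inst

/-- Coefficients of the six face planes (before the boost). -/
noncomputable def al (w : ℝ) : Fin 6 → ℝ := ![0, 0, 2 * w, -(2 * w), 6 * w, -(6 * w)]
noncomputable def be (w : ℝ) : Fin 6 → ℝ := ![0, 2, 1 - w ^ 2, 1 - w ^ 2, 9 - w ^ 2, 9 - w ^ 2]
noncomputable def ga (w : ℝ) : Fin 6 → ℝ := ![-1, w, 2 * w, 2 * w, 2 * w, 2 * w]
noncomputable def de (w : ℝ) : Fin 6 → ℝ :=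
  ![0, 2, 1 + w ^ 2, 1 + w ^ 2, 9 + w ^ 2, 9 + w ^ 2]

/-- Coordinates of the eight vertices (before the boost). -/
noncomputable def vx (w : ℝ) : Fin 8 → ℝ :=
  ![w / 3, -(w / 3), 4 * w / (3 + w ^ 2), -(4 * w / (3 + w ^ 2)), 0, 0, 4 * w / (7 + w ^ 2),
    -(4 * w / (7 + w ^ 2))]
noncomputable def vy (w : ℝ) : Fin 8 → ℝ :=
  ![1, 1, (3 - w ^ 2) / (3 + w ^ 2), (3 - w ^ 2) / (3 + w ^ 2), -((w ^ 2 + 1) / (w ^ 2 - 1)),
    (3 - w ^ 2) / (3 + w ^ 2), (7 - w ^ 2) / (7 + w ^ 2), (7 - w ^ 2) / (7 + w ^ 2)]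
noncomputable def vz (w : ℝ) : Fin 8 → ℝ :=
  ![0, 0, 0, 0, 0, 4 * w / (3 + w ^ 2), 4 * w / (7 + w ^ 2), 4 * w / (7 + w ^ 2)]
/-- Tangent lengths (before the boost). -/
noncomputable def vt (w : ℝ) : Fin 8 → ℝ :=
  ![w / 3, w / 3, 2 * w / (3 + w ^ 2), 2 * w / (3 + w ^ 2), 2 * w / (w ^ 2 - 1),
    2 * w / (3 + w ^ 2), 2 * w / (7 + w ^ 2), 2 * w / (7 + w ^ 2)]

/-- Which vertex lies on which face. -/
def act : Fin 8 → Fin 6 → Bool :=
  ![![true, true, false, false, true, false],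
    ![true, true, false, false, false, true],
    ![true, false, true, false, true, false],
    ![true, false, false, true, false, true],
    ![true, false, true, true, false, false],
    ![false, true, true, true, false, false],
    ![false, true, true, false, true, false],
    ![false, true, false, true, false, true]]

def ei : Fin 12 → Fin 6 := ![0, 0, 1, 0, 1, 0, 2, 0, 3, 2, 1, 1]
def ej : Fin 12 → Fin 6 := ![1, 4, 4, 5, 5, 2, 4, 3, 5, 3, 2, 3]
def ep : Fin 12 → Fin 8 := ![0, 0, 0, 1, 1, 2, 2, 3, 3, 4, 5, 5]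
def eq : Fin 12 → Fin 8 := ![1, 2, 6, 3, 7, 4, 6, 4, 7, 5, 6, 7]

lemma base_act (w : ℝ) (hw : 1 < w) (v : Fin 8) (i : Fin 6) (h : act v i = true) :
    de w i - al w i * vx w v - be w i * vy w v - ga w i * vz w v = 0 := by
  have h1 : (w ^ 2 - 1) ≠ 0 := by nlinarith
  have h2 : (3 + w ^ 2) ≠ 0 := by positivity
  have h3 : (7 + w ^ 2) ≠ 0 := by positivity
  fin_cases v <;> fin_cases i <;> simp [act] at h <;>
    simp [de, al, be, ga, vx, vy, vz] <;> field_simp <;> ring

lemma base_nact (w : ℝ) (hw : 1 < w) (v : Fin 8) (i : Fin 6) (h : act v i = false) :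
    0 < de w i - al w i * vx w v - be w i * vy w v - ga w i * vz w v := by
  have h0 : 0 < w := by linarith
  have h1 : 0 < w ^ 2 - 1 := by nlinarith
  have h2 : 0 < 3 + w ^ 2 := by positivity
  have h3 : 0 < 7 + w ^ 2 := by positivity
  have key : ∀ (D s c : ℝ), 0 < D → 0 < c → s * D = c → 0 < s := by
    intro D s c hD hc hs
    by_contra hcon
    push Not at hcon
    nlinarith
  fin_cases v <;> fin_cases i <;> simp only [act] at h <;> simp at h
  · exact key 3 _ (4 * w ^ 2) (by norm_num) (by positivity)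
      (by simp [de, al, be, ga, vx, vy, vz]; ring)
  · exact key 3 _ (8 * w ^ 2) (by norm_num) (by positivity)
      (by simp [de, al, be, ga, vx, vy, vz]; ring)
  · exact key 3 _ (12 * w ^ 2) (by norm_num) (by positivity)
      (by simp [de, al, be, ga, vx, vy, vz]; ring)
  · exact key 3 _ (8 * w ^ 2) (by norm_num) (by positivity)
      (by simp [de, al, be, ga, vx, vy, vz]; ring)
  · exact key 3 _ (4 * w ^ 2) (by norm_num) (by positivity)
      (by simp [de, al, be, ga, vx, vy, vz]; ring)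
  · exact key 3 _ (12 * w ^ 2) (by norm_num) (by positivity)
      (by simp [de, al, be, ga, vx, vy, vz]; ring)
  · exact key (3 + w ^ 2) _ (4 * w ^ 2) h2 (by positivity)
      (by simp [de, al, be, ga, vx, vy, vz]; field_simp; ring)
  · exact key (3 + w ^ 2) _ (16 * w ^ 2) h2 (by positivity)
      (by simp [de, al, be, ga, vx, vy, vz]; field_simp; ring)
  · exact key (3 + w ^ 2) _ (48 * w ^ 2) h2 (by positivity)
      (by simp [de, al, be, ga, vx, vy, vz]; field_simp; ring)
  · exact key (3 + w ^ 2) _ (4 * w ^ 2) h2 (by positivity)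
      (by simp [de, al, be, ga, vx, vy, vz]; field_simp; ring)
  · exact key (3 + w ^ 2) _ (16 * w ^ 2) h2 (by positivity)
      (by simp [de, al, be, ga, vx, vy, vz]; field_simp; ring)
  · exact key (3 + w ^ 2) _ (48 * w ^ 2) h2 (by positivity)
      (by simp [de, al, be, ga, vx, vy, vz]; field_simp; ring)
  · exact key (w ^ 2 - 1) _ (4 * w ^ 2) h1 (by positivity)
      (by simp [de, al, be, ga, vx, vy, vz]; field_simp; ring)
  · exact key (w ^ 2 - 1) _ (16 * w ^ 2) h1 (by positivity)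
      (by simp [de, al, be, ga, vx, vy, vz]; field_simp; ring)
  · exact key (w ^ 2 - 1) _ (16 * w ^ 2) h1 (by positivity)
      (by simp [de, al, be, ga, vx, vy, vz]; field_simp; ring)
  · exact key (3 + w ^ 2) _ (4 * w) h2 (by positivity)
      (by simp [de, al, be, ga, vx, vy, vz]; field_simp)
  · exact key (3 + w ^ 2) _ (16 * w ^ 2) h2 (by positivity)
      (by simp [de, al, be, ga, vx, vy, vz]; field_simp; ring)
  · exact key (3 + w ^ 2) _ (16 * w ^ 2) h2 (by positivity)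
      (by simp [de, al, be, ga, vx, vy, vz]; field_simp; ring)
  · exact key (7 + w ^ 2) _ (4 * w) h3 (by positivity)
      (by simp [de, al, be, ga, vx, vy, vz]; field_simp)
  · exact key (7 + w ^ 2) _ (16 * w ^ 2) h3 (by positivity)
      (by simp [de, al, be, ga, vx, vy, vz]; field_simp; ring)
  · exact key (7 + w ^ 2) _ (48 * w ^ 2) h3 (by positivity)
      (by simp [de, al, be, ga, vx, vy, vz]; field_simp; ring)
  · exact key (7 + w ^ 2) _ (4 * w) h3 (by positivity)
      (by simp [de, al, be, ga, vx, vy, vz]; field_simp)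
  · exact key (7 + w ^ 2) _ (16 * w ^ 2) h3 (by positivity)
      (by simp [de, al, be, ga, vx, vy, vz]; field_simp; ring)
  · exact key (7 + w ^ 2) _ (48 * w ^ 2) h3 (by positivity)
      (by simp [de, al, be, ga, vx, vy, vz]; field_simp; ring)

lemma base_norm (w : ℝ) (hw : 1 < w) (v : Fin 8) :
    vx w v ^ 2 + vy w v ^ 2 + vz w v ^ 2 = 1 + vt w v ^ 2 := by
  have h1 : (w ^ 2 - 1) ≠ 0 := by nlinarith
  have h2 : (3 + w ^ 2) ≠ 0 := by positivity
  have h3 : (7 + w ^ 2) ≠ 0 := by positivity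
  fin_cases v <;> simp [vx, vy, vz, vt] <;> field_simp <;> ring

lemma base_inner (w : ℝ) (hw : 1 < w) (k : Fin 12) :
    vx w (ep k) * vx w (eq k) + vy w (ep k) * vy w (eq k) + vz w (ep k) * vz w (eq k)
      = 1 - vt w (ep k) * vt w (eq k) := by
  have h1 : (w ^ 2 - 1) ≠ 0 := by nlinarith
  have h2 : (3 + w ^ 2) ≠ 0 := by positivity
  have h3 : (7 + w ^ 2) ≠ 0 := by positivity
  fin_cases k <;> simp [vx, vy, vz, vt, ep, eq] <;> field_simp <;> ring

lemma base_t (w : ℝ) (hw : 1 < w) (v : Fin 8) : 0 < vt w v := by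
  have h0 : 0 < w := by linarith
  have h1 : 0 < w ^ 2 - 1 := by nlinarith
  fin_cases v <;> simp [vt] <;> positivity

lemma base_indep (w : ℝ) (hw : 1 < w) (v : Fin 8) (X Y Z : ℝ)
    (h : ∀ i, act v i = true → al w i * X + be w i * Y + ga w i * Z = 0) :
    X = 0 ∧ Y = 0 ∧ Z = 0 := by
  have h0 : w ≠ 0 := by positivity
  have h1 : (w ^ 2 - 1) ≠ 0 := by nlinarith
  have h2 : (3 + w ^ 2) ≠ 0 := by positivity
  have h3 : (7 + w ^ 2) ≠ 0 := by positivity
  have mul0 : ∀ c x : ℝ, c ≠ 0 → c * x = 0 → x = 0 := by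
    intro c x hc hx
    rcases mul_eq_zero.1 hx with h | h
    · exact absurd h hc
    · exact h
  fin_cases v
  · have e0 := h 0 rfl
    have e1 := h 1 rfl
    have e2 := h 4 rfl
    simp [al, be, ga] at e0 e1 e2
    subst e0
    have hY : Y = 0 := by linarith
    subst hY
    exact ⟨mul0 (6 * w) X (by positivity) (by linarith), rfl, rfl⟩
  · have e0 := h 0 rfl
    have e1 := h 1 rfl
    have e2 := h 5 rfl
    simp [al, be, ga] at e0 e1 e2
    subst e0
    have hY : Y = 0 := by linarith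
    subst hY
    exact ⟨mul0 (6 * w) X (by positivity) (by linarith), rfl, rfl⟩
  · have e0 := h 0 rfl
    have e1 := h 2 rfl
    have e2 := h 4 rfl
    simp [al, be, ga] at e0 e1 e2
    subst e0
    have hY : Y = 0 := mul0 (6 + 2 * w ^ 2) Y (by positivity) (by linear_combination e2 - 3 * e1)
    subst hY
    exact ⟨mul0 (2 * w) X (by positivity) (by linarith), rfl, rfl⟩
  · have e0 := h 0 rfl
    have e1 := h 3 rfl
    have e2 := h 5 rfl
    simp [al, be, ga] at e0 e1 e2
    subst e0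
    have hY : Y = 0 := mul0 (6 + 2 * w ^ 2) Y (by positivity) (by linear_combination e2 - 3 * e1)
    subst hY
    exact ⟨mul0 (2 * w) X (by positivity) (by linarith), rfl, rfl⟩
  · have e0 := h 0 rfl
    have e1 := h 2 rfl
    have e2 := h 3 rfl
    simp [al, be, ga] at e0 e1 e2
    subst e0
    have hX : X = 0 := mul0 (4 * w) X (by positivity) (by linear_combination e1 - e2)
    subst hX
    exact ⟨rfl, mul0 (w ^ 2 - 1) Y h1 (by linear_combination -e1), rfl⟩
  · have e0 := h 1 rfl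
    have e1 := h 2 rfl
    have e2 := h 3 rfl
    simp [al, be, ga] at e0 e1 e2
    have hX : X = 0 := mul0 (4 * w) X (by positivity) (by linear_combination e1 - e2)
    subst hX
    have hZ : Z = 0 := mul0 (w * (3 + w ^ 2)) Z (by positivity)
      (by linear_combination 2 * e1 - (1 - w ^ 2) * e0)
    subst hZ
    exact ⟨rfl, by linarith, rfl⟩
  · have e0 := h 1 rfl
    have e1 := h 2 rfl
    have e2 := h 4 rfl
    simp [al, be, ga] at e0 e1 e2
    have hZ : Z = 0 := mul0 (w * (7 + w ^ 2)) Z (by positivity)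
      (by linear_combination (3 + w ^ 2) * e0 - (e2 - 3 * e1))
    subst hZ
    have hY : Y = 0 := by linarith
    subst hY
    exact ⟨mul0 (2 * w) X (by positivity) (by linarith), rfl, rfl⟩
  · have e0 := h 1 rfl
    have e1 := h 3 rfl
    have e2 := h 5 rfl
    simp [al, be, ga] at e0 e1 e2
    have hZ : Z = 0 := mul0 (w * (7 + w ^ 2)) Z (by positivity)
      (by linear_combination (3 + w ^ 2) * e0 - (e2 - 3 * e1))
    subst hZ
    have hY : Y = 0 := by linarith
    subst hY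
    exact ⟨mul0 (2 * w) X (by positivity) (by linarith), rfl, rfl⟩

lemma nonadj : ∀ i j : Fin 6, i ≠ j →
    (∀ k : Fin 12, ¬ ((ei k = i ∧ ej k = j) ∨ (ei k = j ∧ ej k = i))) →
    (i = 2 ∧ j = 5) ∨ (i = 5 ∧ j = 2) ∨ (i = 3 ∧ j = 4) ∨ (i = 4 ∧ j = 3) ∨
      (i = 4 ∧ j = 5) ∨ (i = 5 ∧ j = 4) := by
  decide

lemma base_empty (w : ℝ) (hw : 1 < w) (X Y Z W : ℝ) (hW : 0 < W)
    (h : ∀ i, 0 ≤ de w i * W - al w i * X - be w i * Y - ga w i * Z) :
    ¬ (de w 2 * W - al w 2 * X - be w 2 * Y - ga w 2 * Z = 0 ∧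
        de w 5 * W - al w 5 * X - be w 5 * Y - ga w 5 * Z = 0) ∧
    ¬ (de w 3 * W - al w 3 * X - be w 3 * Y - ga w 3 * Z = 0 ∧
        de w 4 * W - al w 4 * X - be w 4 * Y - ga w 4 * Z = 0) ∧
    ¬ (de w 4 * W - al w 4 * X - be w 4 * Y - ga w 4 * Z = 0 ∧
        de w 5 * W - al w 5 * X - be w 5 * Y - ga w 5 * Z = 0) := by
  have h0 : 0 < w := by linarith
  have k0 := h 0
  have k1 := h 1
  have k2 := h 2
  have k3 := h 3
  have k4 := h 4
  have k5 := h 5
  simp [al, be, ga, de] at k0 k1 k2 k3 k4 k5 ⊢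
  -- `A = W - Y`
  have hwZ : 0 ≤ w * Z := mul_nonneg h0.le k0
  have hA : 0 ≤ W - Y := by linarith
  have hfin : ∀ (hA0 : W - Y = 0) (hC0 : w ^ 2 * (W + Y) - 2 * (w * Z) = 0), False := by
    intro hA0 hC0
    have hZ : w * Z = 0 := by linarith
    have hY : Y = W := by linarith
    rw [hZ, hY] at hC0
    have : w ^ 2 * W = 0 := by linarith
    have h5 : 0 < w ^ 2 * W := by positivity
    linarith
  refine ⟨?_, ?_, ?_⟩
  · intro g1 g2
    exact hfin (by linarith) (by linarith)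
  · intro g1 g2
    exact hfin (by linarith) (by linarith)
  · intro g1 g2
    exact hfin (by linarith) (by linarith)

end Inst

end Pool.Agent.Lib.MP_af06f6_co
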