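import Mathlib
import Pool.Agent.Lib.MP_af06f6_co.Instance

open Set Metric

namespace Pool.Agent.Lib.MP_af06f6_co

lemma norm3 (x : E3) : ‖x‖ ^ 2 = x 0 ^ 2 + x 1 ^ 2 + x 2 ^ 2 := by
  rw [EuclideanSpace.norm_sq_eq]
  simp [Fin.sum_univ_three]

namespace Inst

/-- Admissible parameters. -/
structure Par (w T S : ℝ) : Prop where
  hw : 1 < w
  hT : 0 < T
  hwT : w * T < 1
  hS : 0 < S
  hST : S ^ 2 = 1 - T ^ 2

/-- The boosted planes and vertices. -/
noncomputable def aa (w T S : ℝ) (i : Fin 6) : E3 :=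
  !₂[al w i * S, be w i * S, ga w i - de w i * T]
noncomputable def bb (w T : ℝ) (i : Fin 6) : ℝ := de w i - ga w i * T
noncomputable def VV (w T S : ℝ) (v : Fin 8) : E3 :=
  !₂[S * vx w v / (1 - T * vz w v), S * vy w v / (1 - T * vz w v),
    (vz w v - T) / (1 - T * vz w v)]
noncomputable def tt (w T S : ℝ) (v : Fin 8) : ℝ := S * vt w v / (1 - T * vz w v)

variable {w T S : ℝ}

lemma den_pos (P : Par w T S) (v : Fin 8) : 0 < 1 - T * vz w v := by
  have h0 : 0 < w := by linarith [P.hw]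
  have hT := P.hT
  have hwT := P.hwT
  have h2 : 0 < 3 + w ^ 2 := by positivity
  have h3 : 0 < 7 + w ^ 2 := by positivity
  have e1 : T * (4 * w / (3 + w ^ 2)) < 1 := by
    rw [← mul_div_assoc, div_lt_one h2]; nlinarith [P.hw]
  have e2 : T * (4 * w / (7 + w ^ 2)) < 1 := by
    rw [← mul_div_assoc, div_lt_one h3]; nlinarith [P.hw]
  fin_cases v <;> simp [vz] <;> first | exact e1 | exact e2

lemma diff_eq (P : Par w T S) (v : Fin 8) (i : Fin 6) :
    bb w T i - inner ℝ (aa w T S i) (VV w T S v) =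
      S ^ 2 * (de w i - al w i * vx w v - be w i * vy w v - ga w i * vz w v) /
        (1 - T * vz w v) := by
  have h := (den_pos P v).ne'
  rw [inner3]
  simp only [aa, bb, VV]
  simp
  have hS : S ^ 2 = 1 - T ^ 2 := P.hST
  rw [eq_div_iff h, sub_mul]
  have e : (al w i * S * (S * vx w v / (1 - T * vz w v)) +
      be w i * S * (S * vy w v / (1 - T * vz w v)) +
      (ga w i - de w i * T) * ((vz w v - T) / (1 - T * vz w v))) * (1 - T * vz w v)
      = al w i * S * (S * vx w v) + be w i * S * (S * vy w v) +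
        (ga w i - de w i * T) * (vz w v - T) := by
    field_simp
  rw [e]
  linear_combination (ga w i * vz w v - de w i) * hS

lemma hact' (P : Par w T S) (v : Fin 8) (i : Fin 6) (h : act v i = true) :
    inner ℝ (aa w T S i) (VV w T S v) = bb w T i := by
  have h1 := diff_eq P v i
  rw [base_act w P.hw v i h] at h1
  simp at h1
  linarith

lemma hnact' (P : Par w T S) (v : Fin 8) (i : Fin 6) (h : act v i = false) :
    inner ℝ (aa w T S i) (VV w T S v) < bb w T i := by
  have h1 := diff_eq P v i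
  have h2 := base_nact w P.hw v i h
  have h3 : 0 < S ^ 2 * (de w i - al w i * vx w v - be w i * vy w v - ga w i * vz w v) /
        (1 - T * vz w v) :=
    div_pos (mul_pos (pow_pos P.hS 2) h2) (den_pos P v)
  linarith

lemma hnorm' (P : Par w T S) (v : Fin 8) : ‖VV w T S v‖ ^ 2 = 1 + tt w T S v ^ 2 := by
  have h := (den_pos P v).ne'
  have h1 := base_norm w P.hw v
  have hS : S ^ 2 = 1 - T ^ 2 := P.hST
  rw [norm3]
  simp only [VV, tt]
  simp
  field_simp
  linear_combination (S ^ 2) * h1 + (vz w v ^ 2 - 1) * (-hS)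

lemma hinner' (P : Par w T S) (k : Fin 12) :
    inner ℝ (VV w T S (ep k)) (VV w T S (eq k)) = 1 - tt w T S (ep k) * tt w T S (eq k) := by
  have h := (den_pos P (ep k)).ne'
  have h' := (den_pos P (eq k)).ne'
  have h1 := base_inner w P.hw k
  have hS : S ^ 2 = 1 - T ^ 2 := P.hST
  rw [inner3]
  simp only [VV, tt]
  simp
  field_simp
  linear_combination (S ^ 2) * h1 + (vz w (ep k) * vz w (eq k) - 1) * (-hS)

lemma ht' (P : Par w T S) (v : Fin 8) : 0 < tt w T S v :=
  div_pos (mul_pos P.hS (base_t w P.hw v)) (den_pos P v)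

lemma hb' (P : Par w T S) (i : Fin 6) : 0 < bb w T i := by
  have hw := P.hw
  have hT := P.hT
  have hwT := P.hwT
  fin_cases i <;> simp [bb, de, ga] <;> nlinarith

lemma exists_act (i : Fin 6) : ∃ v, act v i = true := by
  revert i
  decide

lemma ha' (P : Par w T S) (i : Fin 6) : aa w T S i ≠ 0 := by
  intro h
  obtain ⟨v, hv⟩ := exists_act i
  have h1 := hact' P v i hv
  rw [h, inner_zero_left] at h1
  have := hb' P i
  linarith

lemma hindep' (P : Par w T S) (v : Fin 8) (d : E3)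
    (h : ∀ i, act v i = true → inner ℝ (aa w T S i) d = 0) : d = 0 := by
  have hS := P.hS
  obtain ⟨h1, h2, h3⟩ := base_indep w P.hw v (S * d 0 - vx w v * (T * d 2))
    (S * d 1 - vy w v * (T * d 2)) (d 2 - vz w v * (T * d 2)) (by
      intro i hi
      have e1 := base_act w P.hw v i hi
      have e2 := h i hi
      rw [inner3] at e2
      simp [aa] at e2
      linear_combination e2 + (T * d 2) * e1)
  have hd : (1 - T * vz w v) * d 2 = 0 := by linear_combination h3
  have hd2 : d 2 = 0 := by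
    rcases mul_eq_zero.1 hd with h | h
    · exact absurd h (den_pos P v).ne'
    · exact h
  rw [hd2] at h1 h2
  simp at h1 h2
  ext i
  fin_cases i
  · simpa using h1.resolve_left hS.ne'
  · simpa using h2.resolve_left hS.ne'
  · simpa using hd2

lemma slack (x : E3) (i : Fin 6) :
    bb w T i - inner ℝ (aa w T S i) x =
      de w i * (1 + T * x 2) - al w i * (S * x 0) - be w i * (S * x 1) - ga w i * (x 2 + T) := by
  rw [inner3]
  simp [aa, bb]
  ring

lemma W_pos (P : Par w T S) {x : E3} (hx : x ∈ hpoly (aa w T S) (bb w T)) :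
    0 < 1 + T * x 2 := by
  have h0 := hx 0
  have h1 := slack (w := w) (T := T) (S := S) x 0
  simp [de, al, be, ga] at h1
  have hT := P.hT
  have hS := P.hS
  have hST := P.hST
  have h2 : 0 ≤ x 2 + T := by linarith
  have h3 : 0 < S ^ 2 := by positivity
  nlinarith [mul_nonneg hT.le h2]

lemma hempty' (P : Par w T S) : ∀ i j : Fin 6, i ≠ j →
    (∀ k : Fin 12, ¬ ((ei k = i ∧ ej k = j) ∨ (ei k = j ∧ ej k = i))) →
      ∀ x ∈ hpoly (aa w T S) (bb w T),
        ¬ (inner ℝ (aa w T S i) x = bb w T i ∧ inner ℝ (aa w T S j) x = bb w T j) := by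
  intro i j hij hk x hx ⟨h1, h2⟩
  have hW := W_pos P hx
  obtain ⟨g1, g2, g3⟩ := base_empty w P.hw (S * x 0) (S * x 1) (x 2 + T) (1 + T * x 2) hW (by
    intro l
    rw [← slack x l]
    exact sub_nonneg.2 (hx l))
  have s : ∀ l : Fin 6, inner ℝ (aa w T S l) x = bb w T l →
      de w l * (1 + T * x 2) - al w l * (S * x 0) - be w l * (S * x 1) - ga w l * (x 2 + T) = 0 := by
    intro l hl
    rw [← slack x l, hl, sub_self]
  rcases nonadj i j hij hk with ⟨rfl, rfl⟩ | ⟨rfl, rfl⟩ | ⟨rfl, rfl⟩ | ⟨rfl, rfl⟩ | ⟨rfl, rfl⟩ |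
    ⟨rfl, rfl⟩
  · exact g1 ⟨s _ h1, s _ h2⟩
  · exact g1 ⟨s _ h2, s _ h1⟩
  · exact g2 ⟨s _ h1, s _ h2⟩
  · exact g2 ⟨s _ h2, s _ h1⟩
  · exact g3 ⟨s _ h1, s _ h2⟩
  · exact g3 ⟨s _ h2, s _ h1⟩

lemma hbd' (P : Par w T S) : Bornology.IsBounded (hpoly (aa w T S) (bb w T)) := by
  have hw := P.hw
  have hT := P.hT
  have hwT := P.hwT
  have hS := P.hS
  have hST := P.hST
  have h0 : 0 < w := by linarith
  have hw1 : 0 < w ^ 2 - 1 := by nlinarith
  set M : ℝ := 4 * w / (w ^ 2 - 1) with hM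
  have hM0 : 0 < M := by positivity
  have hMeq : M * (w ^ 2 - 1) = 4 * w := by rw [hM]; field_simp
  set R : ℝ := (w + (1 + w ^ 2) / (w ^ 2 - 1)) * (1 + M) / S + M + 1 with hR
  have hR0 : 0 < R := by positivity
  rw [isBounded_iff_forall_norm_le]
  refine ⟨2 * R, ?_⟩
  intro x hx
  have hW := W_pos P hx
  have k : ∀ i, 0 ≤ de w i * (1 + T * x 2) - al w i * (S * x 0) - be w i * (S * x 1)
      - ga w i * (x 2 + T) := by
    intro i
    rw [← slack x i]
    exact sub_nonneg.2 (hx i)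
  have k0 := k 0
  have k1 := k 1
  have k2 := k 2
  have k3 := k 3
  simp [de, al, be, ga] at k0 k1 k2 k3
  set Z := x 2 + T with hZ
  have hT1 : T < 1 := by nlinarith
  have hWZ : 1 + T * x 2 = S ^ 2 + T * Z := by rw [hZ, hST]; ring
  have hS1 : S ^ 2 < 1 := by nlinarith
  -- bound on `Z`
  have hZ1 : Z * (3 + w ^ 2) ≤ 4 * w * (1 + T * x 2) := by
    have e : w * (Z * (3 + w ^ 2)) ≤ w * (4 * w * (1 + T * x 2)) := by
      have k1' : 0 ≤ 2 * (1 + T * x 2) - 2 * (S * x 1) - w * Z := by linarith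
      nlinarith [mul_nonneg hw1.le k1']
    exact le_of_mul_le_mul_left e h0
  have hZM : Z ≤ M := by
    have e1 : Z * (w ^ 2 - 1) ≤ 4 * w := by
      rw [hWZ] at hZ1
      have e2 : T * Z * (4 * w) ≤ 4 * Z := by nlinarith
      have e3 : 4 * w * S ^ 2 ≤ 4 * w := by nlinarith
      nlinarith
    rw [hM, le_div_iff₀ hw1]
    exact e1
  have hWM : 1 + T * x 2 ≤ 1 + M := by
    rw [hWZ]
    nlinarith
  have hY1 : S * x 1 ≤ 1 + M := by
    have : w * Z ≥ 0 := mul_nonneg h0.le k0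
    linarith
  have hwZ : 0 ≤ w * Z := mul_nonneg h0.le k0
  have hYs : S * x 1 ≤ 1 + T * x 2 := by linarith
  have hY2 : -(S * x 1) * (w ^ 2 - 1) ≤ (1 + w ^ 2) * (1 + T * x 2) := by
    linarith
  have hY2' : -(S * x 1) ≤ (1 + w ^ 2) / (w ^ 2 - 1) * (1 + M) := by
    rw [div_mul_eq_mul_div, le_div_iff₀ hw1]
    have : (1 + w ^ 2) * (1 + T * x 2) ≤ (1 + w ^ 2) * (1 + M) :=
      mul_le_mul_of_nonneg_left hWM (by positivity)
    linarith
  have hwW : w * (1 + T * x 2) ≤ w * (1 + M) := mul_le_mul_of_nonneg_left hWM h0.le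
  have hYw : (S * x 1) * (w ^ 2 - 1) ≤ (1 + T * x 2) * (w ^ 2 - 1) :=
    mul_le_mul_of_nonneg_right hYs hw1.le
  have hX1 : S * x 0 ≤ w * (1 + M) := by
    have e : 2 * w * (S * x 0) ≤ 2 * w * (w * (1 + T * x 2)) := by
      linarith
    have e' := le_of_mul_le_mul_left e (by positivity)
    linarith
  have hX2 : -(S * x 0) ≤ w * (1 + M) := by
    have e : 2 * w * (-(S * x 0)) ≤ 2 * w * (w * (1 + T * x 2)) := by
      linarith
    have e' := le_of_mul_le_mul_left e (by positivity)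
    linarith
  have hq : 0 ≤ (1 + w ^ 2) / (w ^ 2 - 1) := by positivity
  have hq1 : 1 ≤ (1 + w ^ 2) / (w ^ 2 - 1) := by
    rw [le_div_iff₀ hw1]; linarith
  set Q := (1 + w ^ 2) / (w ^ 2 - 1) with hQ
  have hQM : 0 ≤ Q * (1 + M) := by positivity
  have hwM : 0 ≤ w * (1 + M) := by positivity
  have hQM1 : 1 + M ≤ Q * (1 + M) := le_mul_of_one_le_left (by positivity) hq1
  have b0 : |x 0| ≤ R := by
    have hb : S * |x 0| ≤ (w + Q) * (1 + M) := by
      have : S * |x 0| = |S * x 0| := by rw [abs_mul, abs_of_pos hS]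
      rw [this, abs_le]
      constructor <;> linarith
    have hb2 : |x 0| ≤ (w + Q) * (1 + M) / S := by
      rw [le_div_iff₀ hS]; linarith
    linarith
  have b1 : |x 1| ≤ R := by
    have hb : S * |x 1| ≤ (w + Q) * (1 + M) := by
      have : S * |x 1| = |S * x 1| := by rw [abs_mul, abs_of_pos hS]
      rw [this, abs_le]
      constructor <;> linarith
    have hb2 : |x 1| ≤ (w + Q) * (1 + M) / S := by
      rw [le_div_iff₀ hS]; linarith
    linarith
  have hpos : 0 ≤ (w + Q) * (1 + M) / S := by positivity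
  have b2 : |x 2| ≤ R := by
    rw [abs_le]
    constructor <;> linarith
  have hn : ‖x‖ ^ 2 ≤ (2 * R) ^ 2 := by
    rw [norm3]
    have c0 : x 0 ^ 2 ≤ R ^ 2 := by rw [← sq_abs]; gcongr
    have c1 : x 1 ^ 2 ≤ R ^ 2 := by rw [← sq_abs]; gcongr
    have c2 : x 2 ^ 2 ≤ R ^ 2 := by rw [← sq_abs]; gcongr
    linarith [sq_nonneg R]
  exact le_of_sq_le_sq hn (by positivity)

theorem cageData (P : Par w T S) :
    CageData (aa w T S) (bb w T) (VV w T S) (tt w T S) act ei ej ep eq :=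
  cageData_of (hbd' P) (hb' P) (ha' P) (hact' P) (hnact' P) (hindep' P) (hempty' P) (ht' P)
    (hnorm' P) (hinner' P) (by norm_num) (by decide) (by decide) (by decide) (by decide)
    (by decide)

end Inst

end Pool.Agent.Lib.MP_af06f6_co
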