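import Mathlib
import Pool.Agent.Lib.MP_af06f6_co.Boost

open Set Metric Filter Topology

namespace Pool.Agent.Lib.MP_af06f6_co

namespace Inst

/-- The boosted polyhedra. -/
noncomputable def poly (w T : ℝ) : Set E3 := hpoly (aa w T (√(1 - T ^ 2))) (bb w T)

lemma par {w T : ℝ} (hw : 1 < w) (hT : 0 < T) (hwT : w * T < 1) : Par w T (√(1 - T ^ 2)) := by
  have h1 : 0 < 1 - T ^ 2 := by nlinarith
  exact ⟨hw, hT, hwT, Real.sqrt_pos.2 h1, Real.sq_sqrt h1.le⟩

theorem poly_mem {w T : ℝ} (hw : 1 < w) (hT : 0 < T) (hwT : w * T < 1) :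
    poly w T ∈ cageClass 0 := (cageData (par hw hT hwT)).mem_cageClass

/-- The length of the boosted polyhedra. -/
noncomputable def len (w T : ℝ) : ℝ :=
  3 * √(1 - T ^ 2) * (2 * (w / 3) + 2 * (2 * w / (3 + w ^ 2)) + 2 * w / (w ^ 2 - 1) +
    (2 * w / (3 + w ^ 2)) / (1 - T * (4 * w / (3 + w ^ 2))) +
    2 * ((2 * w / (7 + w ^ 2)) / (1 - T * (4 * w / (7 + w ^ 2)))))

theorem poly_length {w T : ℝ} (hw : 1 < w) (hT : 0 < T) (hwT : w * T < 1) :
    totalLength (poly w T) = len w T := by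
  have h := (cageData (par hw hT hwT)).totalLength_eq
  rw [poly, h, len]
  simp [Fin.sum_univ_succ, ep, eq, tt, vt, vz]
  ring

theorem len_tendsto (w : ℝ) :
    Tendsto (len w) (𝓝[>] 0)
      (𝓝 (2 * w + 18 * w / (w ^ 2 + 3) + 6 * w / (w ^ 2 - 1) + 12 * w / (w ^ 2 + 7))) := by
  have h : ContinuousAt (len w) 0 := by
    unfold len
    apply ContinuousAt.mul
    · fun_prop
    · apply ContinuousAt.add
      · apply ContinuousAt.add
        · fun_prop
        · apply ContinuousAt.div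
          · fun_prop
          · fun_prop
          · simp
      · apply ContinuousAt.mul
        · fun_prop
        · apply ContinuousAt.div
          · fun_prop
          · fun_prop
          · simp
  have h1 := h.tendsto.mono_left (nhdsWithin_le_nhds (s := Ioi (0 : ℝ)))
  have h2 : len w 0 = 2 * w + 18 * w / (w ^ 2 + 3) + 6 * w / (w ^ 2 - 1) + 12 * w / (w ^ 2 + 7) := by
    simp [len]
    rw [add_comm (w ^ 2) 3, add_comm (w ^ 2) 7]
    ring
  rwa [h2] at h1

theorem exists_poly (w : ℝ) (hw : 1 < w) (C : ℝ)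
    (hC : 2 * w + 18 * w / (w ^ 2 + 3) + 6 * w / (w ^ 2 - 1) + 12 * w / (w ^ 2 + 7) < C) :
    ∃ P ∈ cageClass 0, totalLength P < C := by
  have h0 : 0 < w := by linarith
  have h1 := (len_tendsto w).eventually (gt_mem_nhds hC)
  have h2 : ∀ᶠ T in 𝓝[>] (0 : ℝ), T ∈ Ioo (0 : ℝ) (1 / w) :=
    Ioo_mem_nhdsGT (by positivity)
  obtain ⟨T, hT1, hT2, hT3⟩ := (h1.and h2).exists
  have hwT : w * T < 1 := by
    rw [lt_div_iff₀ h0] at hT3; linarith
  exact ⟨poly w T, poly_mem hw hT2 hwT, by rw [poly_length hw hT2 hwT]; exact hT1⟩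

lemma totalLength_nonneg (P : Set E3) : 0 ≤ totalLength P := by
  unfold totalLength
  exact finsum_nonneg fun e => finsum_nonneg fun _ => Metric.diam_nonneg

theorem sInf_le (w : ℝ) (hw : 1 < w) :
    sInf (totalLength '' cageClass 0) ≤
      2 * w + 18 * w / (w ^ 2 + 3) + 6 * w / (w ^ 2 - 1) + 12 * w / (w ^ 2 + 7) := by
  apply le_of_forall_pos_lt_add
  intro ε hε
  obtain ⟨P, hP, hl⟩ := exists_poly w hw
    (2 * w + 18 * w / (w ^ 2 + 3) + 6 * w / (w ^ 2 - 1) + 12 * w / (w ^ 2 + 7) + ε) (by linarith)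
  exact lt_of_le_of_lt (csInf_le ⟨0, by rintro _ ⟨Q, _, rfl⟩; exact totalLength_nonneg Q⟩
    ⟨P, hP, rfl⟩) hl

end Inst

end Pool.Agent.Lib.MP_af06f6_co
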